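import Mathlib

/-!
# Closure under translation is equivalent to the lonely runner conjecture

If the family of `n`-sets satisfying the lonely runner conjecture is closed under translation by
one fixed positive integer `a`, then every `n`-set satisfies the conjecture: for every `n`-set `W`
the set `V = 2 a W - a` consists of odd multiples of `a`, so that `κ(V) = 1 / 2`, and
`a + V = 2 a W` has the same loneliness gap as `W`.
-/

set_option autoImplicit false

namespace Pool.Agent.Results.MP_64d5df_nt.ClosureIffLonelyRunner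

/-- The loneliness gap of a finite set of speeds: the supremum over all real `t` of the minimum over
`v ∈ V` of the distance of `t v` to the nearest integer. -/
noncomputable def κ (V : Finset ℕ) : ℝ :=
  ⨆ t : ℝ, ⨅ v : V, |t * (v : ℕ) - round (t * (v : ℕ))|

/-- The translate `a + V`. -/
def translate (a : ℕ) (V : Finset ℕ) : Finset ℕ := V.image (fun v => a + v)

/-- `V` is a set of `n` positive integers. -/
def IsSpeeds (n : ℕ) (V : Finset ℕ) : Prop := V.card = n ∧ ∀ v ∈ V, 0 < v

theorem bdd (V : Finset ℕ) (t : ℝ) :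
    BddBelow (Set.range fun v : V => |t * (v : ℕ) - round (t * (v : ℕ))|) :=
  ⟨0, by rintro _ ⟨v, rfl⟩; exact abs_nonneg _⟩

theorem inf_le {V : Finset ℕ} (t : ℝ) {v : ℕ} (hv : v ∈ V) :
    (⨅ v : V, |t * (v : ℕ) - round (t * (v : ℕ))|) ≤ |t * v - round (t * v)| :=
  ciInf_le (bdd V t) ⟨v, hv⟩

theorem bddA {V : Finset ℕ} (hV : V.Nonempty) :
    BddAbove (Set.range fun t : ℝ => ⨅ v : V, |t * (v : ℕ) - round (t * (v : ℕ))|) := by
  obtain ⟨v, hv⟩ := hV
  refine ⟨1 / 2, ?_⟩
  rintro _ ⟨t, rfl⟩
  exact (inf_le t hv).trans (abs_sub_round _)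

theorem le_κ {V : Finset ℕ} (hV : V.Nonempty) {c : ℝ} (t : ℝ)
    (h : ∀ v ∈ V, c ≤ |t * v - round (t * v)|) : c ≤ κ V := by
  refine le_trans ?_ (le_ciSup (bddA hV) t)
  have : Nonempty V := hV.to_subtype
  exact le_ciInf fun v => h v v.2

theorem le_nd {c y : ℝ} (n : ℤ) (h1 : c ≤ y - n) (h2 : y - n ≤ 1 - c) : c ≤ |y - round y| := by
  rcases le_or_gt (round y) n with h | h
  · have : ((round y : ℤ) : ℝ) ≤ n := by exact_mod_cast h
    exact le_trans (by linarith) (le_abs_self _)
  · have : (n : ℝ) + 1 ≤ ((round y : ℤ) : ℝ) := by exact_mod_cast h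
    exact le_trans (by linarith) (neg_le_abs _)

/-- The loneliness gap of `c W` is at most that of `W` (they are equal). -/
theorem κ_mul_le {W V : Finset ℕ} (hW : W.Nonempty) (c : ℕ) (h : ∀ w ∈ W, c * w ∈ V) :
    κ V ≤ κ W := by
  refine ciSup_le fun t => ?_
  refine le_κ hW (t * c) fun w hw => ?_
  have := inf_le t (h w hw)
  have e : t * ((c * w : ℕ) : ℝ) = t * c * w := by push_cast; ring
  rwa [e] at this

/-- **Theorem.** Let `n ≥ 1` and `a ≥ 1`. The family of the sets of `n` speeds which satisfy the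
lonely runner conjecture is closed under translation by `a` if and only if every set of `n` speeds
satisfies the lonely runner conjecture. -/
theorem result : ∀ n a : ℕ, 1 ≤ n → 1 ≤ a →
    ((∀ V : Finset ℕ, IsSpeeds n V → 1 / ((n : ℝ) + 1) ≤ κ V →
        1 / ((n : ℝ) + 1) ≤ κ (translate a V)) ↔
      ∀ V : Finset ℕ, IsSpeeds n V → 1 / ((n : ℝ) + 1) ≤ κ V) := by
  intro n a hn ha
  constructor
  · intro h W hW
    have hWne : W.Nonempty := by
      rw [← Finset.card_pos, hW.1]; omega
    set V : Finset ℕ := W.image (fun w => a * (2 * w - 1)) with hVdef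
    have hinj : Set.InjOn (fun w => a * (2 * w - 1)) (W : Set ℕ) := by
      intro x hx y hy hxy
      have h1 := hW.2 x (by simpa using hx)
      have h2 := hW.2 y (by simpa using hy)
      have h3 : 2 * x - 1 = 2 * y - 1 := Nat.eq_of_mul_eq_mul_left (by omega) hxy
      omega
    have hV : IsSpeeds n V := by
      refine ⟨?_, fun v hv => ?_⟩
      · rw [hVdef, Finset.card_image_of_injOn hinj, hW.1]
      · obtain ⟨w, hw, rfl⟩ := Finset.mem_image.1 hv
        have := hW.2 w hw
        exact Nat.mul_pos (by omega) (by omega)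
    have hVne : V.Nonempty := hWne.image _
    have haR : (0 : ℝ) < a := by exact_mod_cast (show 0 < a by omega)
    have hhalf : (1 / 2 : ℝ) ≤ κ V := by
      refine le_κ hVne (1 / (2 * a)) fun v hv => ?_
      obtain ⟨w, hw, rfl⟩ := Finset.mem_image.1 hv
      have hw1 := hW.2 w hw
      have e : 1 / (2 * (a : ℝ)) * ((a * (2 * w - 1) : ℕ) : ℝ) = ((w : ℤ) - 1 : ℤ) + 1 / 2 := by
        rw [Nat.cast_mul, Nat.cast_sub (by omega)]
        push_cast
        field_simp
        ring
      rw [e]
      refine le_nd ((w : ℤ) - 1) ?_ ?_ <;> linarith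
    have hle : 1 / ((n : ℝ) + 1) ≤ 1 / 2 := by
      have : (1 : ℝ) ≤ n := by exact_mod_cast hn
      exact one_div_le_one_div_of_le (by norm_num) (by linarith)
    refine (h V hV (hle.trans hhalf)).trans (κ_mul_le hWne (2 * a) fun w hw => ?_)
    unfold translate
    refine Finset.mem_image.2 ⟨a * (2 * w - 1), Finset.mem_image.2 ⟨w, hw, rfl⟩, ?_⟩
    have hw1 := hW.2 w hw
    obtain ⟨u, rfl⟩ : ∃ u, w = u + 1 := ⟨w - 1, by omega⟩
    have : 2 * (u + 1) - 1 = 2 * u + 1 := by omega
    rw [this]; ring
  · intro h V hV _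
    refine h _ ⟨?_, fun v hv => ?_⟩
    · unfold translate
      rw [Finset.card_image_of_injective _ (fun i j h => by simpa using h), hV.1]
    · unfold translate at hv
      obtain ⟨w, hw, rfl⟩ := Finset.mem_image.1 hv
      have := hV.2 w hw
      omega

end Pool.Agent.Results.MP_64d5df_nt.ClosureIffLonelyRunner
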