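import Mathlib

/-!
# The loneliness gap can decrease under translation

For `V = {1, 3, …, 2 n - 1}`, `n ≥ 2`, the loneliness gap is `1 / 2`, the largest possible value,
but that of `1 + V = {2, 4, …, 2 n}` is `1 / (n + 1)`, and that of `a + V` is smaller than `1 / 2`
for every odd `a`.
-/

set_option autoImplicit false

namespace Pool.Agent.Results.MP_64d5df_nt.TranslationDecreasesGap

/-- The loneliness gap of a finite set of speeds: the supremum over all real `t` of the minimum over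
`v ∈ V` of the distance of `t v` to the nearest integer. -/
noncomputable def κ (V : Finset ℕ) : ℝ :=
  ⨆ t : ℝ, ⨅ v : V, |t * (v : ℕ) - round (t * (v : ℕ))|

/-- The translate `a + V`. -/
def translate (a : ℕ) (V : Finset ℕ) : Finset ℕ := V.image (fun v => a + v)

/-- The first `n` odd numbers. -/
def odds (n : ℕ) : Finset ℕ := (Finset.range n).image (fun i => 2 * i + 1)

theorem nd_nonneg (x : ℝ) : 0 ≤ |x - round x| := abs_nonneg _

theorem bdd (V : Finset ℕ) (t : ℝ) :
    BddBelow (Set.range fun v : V => |t * (v : ℕ) - round (t * (v : ℕ))|) :=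
  ⟨0, by rintro _ ⟨v, rfl⟩; exact abs_nonneg _⟩

theorem inf_le {V : Finset ℕ} (t : ℝ) {v : ℕ} (hv : v ∈ V) :
    (⨅ v : V, |t * (v : ℕ) - round (t * (v : ℕ))|) ≤ |t * v - round (t * v)| :=
  ciInf_le (bdd V t) ⟨v, hv⟩

theorem κ_le {V : Finset ℕ} {c : ℝ} (h : ∀ t : ℝ, ∃ v ∈ V, |t * v - round (t * v)| ≤ c) :
    κ V ≤ c := by
  refine ciSup_le fun t => ?_
  obtain ⟨v, hv, h⟩ := h t
  exact (inf_le t hv).trans h

theorem bddA {V : Finset ℕ} (hV : V.Nonempty) :
    BddAbove (Set.range fun t : ℝ => ⨅ v : V, |t * (v : ℕ) - round (t * (v : ℕ))|) := by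
  obtain ⟨v, hv⟩ := hV
  refine ⟨1 / 2, ?_⟩
  rintro _ ⟨t, rfl⟩
  exact (inf_le t hv).trans (abs_sub_round _)

theorem le_κ {V : Finset ℕ} (hV : V.Nonempty) {c : ℝ} (t : ℝ)
    (h : ∀ v ∈ V, c ≤ |t * v - round (t * v)|) : c ≤ κ V := by
  refine le_trans ?_ (le_ciSup (bddA hV) t)
  have : Nonempty V := hV.to_subtype
  exact le_ciInf fun v => h v v.2

theorem le_nd {c y : ℝ} (n : ℤ) (h1 : c ≤ y - n) (h2 : y - n ≤ 1 - c) : c ≤ |y - round y| := by
  rcases le_or_gt (round y) n with h | h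
  · have : ((round y : ℤ) : ℝ) ≤ n := by exact_mod_cast h
    exact le_trans (by linarith) (le_abs_self _)
  · have : (n : ℝ) + 1 ≤ ((round y : ℤ) : ℝ) := by exact_mod_cast h
    exact le_trans (by linarith) (neg_le_abs _)

/-- The loneliness gap of the first `n` odd numbers is `1 / 2`. -/
theorem κ_odds {n : ℕ} (hn : 1 ≤ n) : κ (odds n) = 1 / 2 := by
  have hne : (odds n).Nonempty := ⟨1, by
    unfold odds
    exact Finset.mem_image.2 ⟨0, Finset.mem_range.2 (by omega), rfl⟩⟩
  apply le_antisymm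
  · obtain ⟨v, hv⟩ := hne
    exact κ_le fun t => ⟨v, hv, abs_sub_round _⟩
  · refine le_κ hne (1 / 2) fun v hv => ?_
    obtain ⟨i, -, rfl⟩ := Finset.mem_image.1 hv
    refine le_nd i ?_ ?_ <;> push_cast <;> linarith

/-- The loneliness gap of `2, 4, …, 2 n` is `1 / (n + 1)`. -/
theorem κ_evens {n : ℕ} (hn : 1 ≤ n) : κ (translate 1 (odds n)) = 1 / (n + 1) := by
  have hmem : ∀ v, v ∈ translate 1 (odds n) ↔ ∃ j, 1 ≤ j ∧ j ≤ n ∧ v = 2 * j := by
    intro v
    unfold translate odds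
    simp only [Finset.mem_image, Finset.mem_range, exists_exists_and_eq_and]
    constructor
    · rintro ⟨i, hi, rfl⟩
      exact ⟨i + 1, by omega, by omega, by omega⟩
    · rintro ⟨j, h1, h2, rfl⟩
      exact ⟨j - 1, by omega, by omega⟩
  apply le_antisymm
  · refine κ_le fun t => ?_
    obtain ⟨j, hj, hjn, h⟩ := Real.exists_nat_abs_mul_sub_round_le (2 * t) (n := n) (by omega)
    refine ⟨2 * j, (hmem _).2 ⟨j, by omega, hjn, rfl⟩, ?_⟩
    have : t * ((2 * j : ℕ) : ℝ) = j * (2 * t) := by push_cast; ring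
    rw [this]
    exact h
  · refine le_κ ⟨2, (hmem _).2 ⟨1, le_refl _, hn, rfl⟩⟩ (1 / (2 * (n + 1))) fun v hv => ?_
    obtain ⟨j, h1, h2, rfl⟩ := (hmem v).1 hv
    have hn0 : (0 : ℝ) < (n : ℝ) + 1 := by positivity
    have h3 : 1 / (2 * ((n : ℝ) + 1)) * ((2 * j : ℕ) : ℝ) = j / (n + 1) := by
      push_cast; field_simp
    have h1R : (1 : ℝ) ≤ j := by exact_mod_cast h1
    have h2R : (j : ℝ) ≤ n := by exact_mod_cast h2
    rw [h3]
    refine le_nd 0 ?_ ?_
    · rw [Int.cast_zero, sub_zero]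
      exact div_le_div_of_nonneg_right h1R hn0.le
    · rw [Int.cast_zero, sub_zero, le_sub_iff_add_le, ← add_div, div_le_one hn0]
      linarith

/-- If the set contains the numbers `2 m` and `2 m + 2`, then its loneliness gap is at most
`1 / 2 - 1 / (4 m + 2)`. -/
theorem κ_pair {V : Finset ℕ} (m : ℕ) (h1 : 2 * m ∈ V) (h2 : 2 * m + 2 ∈ V) :
    κ V ≤ 1 / 2 - 1 / (4 * m + 2) := by
  refine κ_le fun t => ?_
  by_contra hcon
  push Not at hcon
  have e1 := hcon _ h1
  have e2 := hcon _ h2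
  have hm : (0 : ℝ) ≤ m := Nat.cast_nonneg m
  set x : ℝ := t * ((2 * m : ℕ) : ℝ) with hx
  set y : ℝ := t * ((2 * m + 2 : ℕ) : ℝ) with hy
  have hxy : (m + 1) * x = m * y := by
    rw [hx, hy]; push_cast; ring
  -- every number `z` differs from some integer plus one half by `1 / 2 - ‖z‖`
  have half : ∀ z : ℝ, ∃ k : ℤ, |z - (k + 1 / 2)| = 1 / 2 - |z - round z| := by
    intro z
    have h3 := abs_sub_round z
    rcases le_or_gt 0 (z - round z) with h | h
    · refine ⟨round z, ?_⟩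
      rw [abs_of_nonneg h] at h3 ⊢
      rw [abs_of_nonpos (by linarith)]; ring
    · refine ⟨round z - 1, ?_⟩
      rw [abs_of_neg h] at h3 ⊢
      push_cast
      rw [abs_of_nonneg (by linarith)]; ring
  obtain ⟨k, hk⟩ := half x
  obtain ⟨l, hl⟩ := half y
  set η : ℝ := 1 / (4 * m + 2) with hη
  have hk' : |x - (k + 1 / 2)| < η := by rw [hk]; linarith
  have hl' : |y - (l + 1 / 2)| < η := by rw [hl]; linarith
  -- the integer plus one half `(m + 1) (k + 1 / 2) - m (l + 1 / 2)` is small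
  have hint : (1 / 2 : ℝ) ≤ |(m + 1) * ((k : ℝ) + 1 / 2) - m * ((l : ℝ) + 1 / 2)| := by
    have : (m + 1) * ((k : ℝ) + 1 / 2) - m * ((l : ℝ) + 1 / 2) =
        (((m + 1) * k - m * l : ℤ) : ℝ) + 1 / 2 := by push_cast; ring
    rw [this]
    generalize ((m + 1) * k - m * l : ℤ) = z
    rcases le_or_gt 0 z with h | h
    · have : (0 : ℝ) ≤ z := by exact_mod_cast h
      exact le_trans (by linarith) (le_abs_self _)
    · have : (z : ℝ) ≤ -1 := by
        have : z ≤ -1 := by omega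
        exact_mod_cast this
      exact le_trans (by linarith) (neg_le_abs _)
  have hsum : |(m + 1) * ((k : ℝ) + 1 / 2) - m * ((l : ℝ) + 1 / 2)| < (2 * m + 1) * η := by
    have h4 : (m + 1) * ((k : ℝ) + 1 / 2) - m * ((l : ℝ) + 1 / 2) =
        m * (y - (l + 1 / 2)) - (m + 1) * (x - (k + 1 / 2)) := by linear_combination hxy
    rw [h4]
    refine (abs_sub _ _).trans_lt ?_
    rw [abs_mul, abs_mul, abs_of_nonneg hm, abs_of_pos (by linarith : (0 : ℝ) < m + 1)]
    have h5 : (m : ℝ) * |y - (l + 1 / 2)| ≤ m * η := mul_le_mul_of_nonneg_left hl'.le hm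
    have h6 : ((m : ℝ) + 1) * |x - (k + 1 / 2)| < (m + 1) * η :=
      mul_lt_mul_of_pos_left hk' (by linarith)
    linarith
  have h7 : (2 * (m : ℝ) + 1) * η = 1 / 2 := by
    rw [hη]; field_simp; ring
  linarith

/-- **Theorem.** Let `n ≥ 2` and let `V = {1, 3, …, 2 n - 1}`, a set of `n` positive integers. Then
`κ(V) = 1 / 2` and `κ(1 + V) = 1 / (n + 1)`, and `κ(a + V) < κ(V)` for every odd `a`. -/
theorem result : ∀ n : ℕ, 2 ≤ n → (odds n).card = n ∧ κ (odds n) = 1 / 2 ∧
    κ (translate 1 (odds n)) = 1 / (n + 1) ∧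
    ∀ a : ℕ, Odd a → κ (translate a (odds n)) < κ (odds n) := by
  intro n hn
  refine ⟨?_, κ_odds (by omega), κ_evens (by omega), fun a ha => ?_⟩
  · unfold odds
    rw [Finset.card_image_of_injective _ (fun i j h => by simpa using h), Finset.card_range]
  rw [κ_odds (by omega)]
  obtain ⟨c, rfl⟩ := ha
  have h1 : 2 * (c + 1) ∈ translate (2 * c + 1) (odds n) := by
    unfold translate odds
    simp only [Finset.mem_image, Finset.mem_range, exists_exists_and_eq_and]
    exact ⟨0, by omega, by omega⟩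
  have h2 : 2 * (c + 1) + 2 ∈ translate (2 * c + 1) (odds n) := by
    unfold translate odds
    simp only [Finset.mem_image, Finset.mem_range, exists_exists_and_eq_and]
    exact ⟨1, by omega, by omega⟩
  refine (κ_pair (c + 1) h1 h2).trans_lt ?_
  have : (0 : ℝ) < 1 / (4 * ((c + 1 : ℕ) : ℝ) + 2) := by positivity
  linarith

end Pool.Agent.Results.MP_64d5df_nt.TranslationDecreasesGap
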